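import Pool.Agent.H10.IEP.Targets

/-!
# Row SG: cofinal sets of values make the ordinal singular in HOD
-/

set_option autoImplicit false

open Ordinal Cardinal Order Set
open scoped ZFSet

universe u

namespace Pool.Agent.H66.IEP

open _root_.HD Pool.Agent.H10.IEP

theorem pf_SG (hLD : T_LD.{u}) (hDB : T_DB.{u}) (hVH : T_VH.{u}) : T_SG.{u} := by
  intro μ ρ F β hF hS
  obtain ⟨τ, hτ, h, hmono, hlt, hcof, hval⟩ := hS
  have hX : DO.{u} fun w => w 0 < β ∧ Ph μ ρ F (w 0) := by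
    refine (DO.ltc 0 β).and ?_
    exact DO.sub (R := fun r w => Ph μ r F (w 0)) ρ
      (DO.sub (R := fun m w => Ph m (w 0) F (w 1)) μ (hLD F hF))
  have hR : DR (nth {i | i < β ∧ Ph μ ρ F i}) :=
    hDB (fun a _ => a < β ∧ Ph μ ρ F a) hX
  have hn : ∀ a < τ, nth {i | i < β ∧ Ph μ ρ F i} a (h a) := by
    intro a ha
    refine ⟨⟨hlt a ha, (hval _ (hlt a ha)).2 ⟨a, ha, rfl⟩⟩, h, fun x y hxy hy =>
      hmono x y hxy (hy.trans ha), fun x hx => ⟨⟨hlt x (hx.trans ha),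
        (hval _ (hlt x (hx.trans ha))).2 ⟨x, hx.trans ha, rfl⟩⟩, hmono x a hx ha⟩, ?_⟩
    rintro y ⟨hy1, hy2⟩ hy3
    obtain ⟨x, hx, rfl⟩ := (hval y hy1).1 hy2
    refine ⟨x, ?_, rfl⟩
    by_contra hc
    rcases (not_lt.1 hc).lt_or_eq with hc | hc
    · exact absurd (hmono a x hc hx) (not_lt.2 hy3.le)
    · rw [hc] at hy3
      exact lt_irrefl _ hy3
  have huniq : ∀ a z y, nth {i | i < β ∧ Ph μ ρ F i} a z → nth {i | i < β ∧ Ph μ ρ F i} a y →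
      z = y := by
    intro a z y h1 h2
    have h3 := (hVH {i | i < β ∧ Ph μ ρ F i}).2.1
    rcases lt_trichotomy z y with h4 | h4 | h4
    · exact absurd ((h3 a a z y h1 h2).2 h4) (lt_irrefl a)
    · exact h4
    · exact absurd ((h3 a a y z h2 h1).2 h4) (lt_irrefl a)
  refine ⟨τ, hτ, rs τ β (nth {i | i < β ∧ Ph μ ρ F i}), hod_rs hR τ β, ⟨?_, ?_⟩, ?_⟩
  · intro p hp
    exact (ZFSet.mem_sep.1 hp).1
  · intro z hz
    obtain ⟨a, ha, rfl⟩ := mem_toZFSet_iff.1 hz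
    refine ⟨(h a).toZFSet, pair_mem_rs.2 ⟨ha, hlt a ha, hn a ha⟩, fun w hw => ?_⟩
    obtain ⟨a', ha', b', hb', hR', he⟩ := mem_rs.1 hw
    obtain ⟨h1, h2⟩ := ZFSet.pair_injective he
    have h3 := toZFSet_injective h1
    rw [h2]
    subst h3
    rw [huniq a b' (h a) hR' (hn a ha)]
  · intro b hb
    obtain ⟨a, ha, hba⟩ := hcof b hb
    exact ⟨a, ha, h a, hba.le, pair_mem_rs.2 ⟨ha, hlt a ha, hn a ha⟩⟩

end Pool.Agent.H66.IEP
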